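import Mathlib

/-!
# Families of points of the cube with small diameter
-/

namespace Pool.Agent.L5helper18.TP

/-- Hamming distance. -/
def hd {n : ℕ} (x y : Fin n → Bool) : ℕ := (Finset.univ.filter (fun i => x i ≠ y i)).card

theorem hd_eq_sum {n : ℕ} (x y : Fin n → Bool) : hd x y = ∑ i, if x i ≠ y i then 1 else 0 := by
  unfold hd; rw [Finset.card_filter]

theorem hd_cons {n : ℕ} (b c : Bool) (x y : Fin n → Bool) :
    hd (Fin.cons b x : Fin (n + 1) → Bool) (Fin.cons c y) = (if b ≠ c then 1 else 0) + hd x y := by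
  rw [hd_eq_sum, hd_eq_sum, Fin.sum_univ_succ]
  simp only [Fin.cons_zero, Fin.cons_succ]

theorem hd_triangle {n : ℕ} (x y z : Fin n → Bool) : hd x z ≤ hd x y + hd y z := by
  rw [hd_eq_sum, hd_eq_sum, hd_eq_sum, ← Finset.sum_add_distrib]
  apply Finset.sum_le_sum
  intro i _
  have : ∀ u v w : Bool, (if u ≠ w then 1 else 0) ≤ (if u ≠ v then 1 else 0) + (if v ≠ w then 1 else 0) := by decide
  exact this _ _ _

theorem sum_cons {n : ℕ} (f : (Fin (n + 1) → Bool) → ℝ) :
    ∑ x, f x = ∑ y : Fin n → Bool, f (Fin.cons false y) + ∑ y : Fin n → Bool, f (Fin.cons true y) := by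
  rw [← (Fin.consEquiv (fun _ : Fin (n + 1) => Bool)).sum_comp, Fintype.sum_prod_type, Fintype.sum_bool]
  rw [add_comm]
  rfl

/-- A function on the cube which changes by at most the factor `z` between neighbours. -/
theorem lip_bound (z : ℝ) (hz : 1 ≤ z) : ∀ (n : ℕ) (f : (Fin n → Bool) → ℝ), (∀ x, 0 < f x) →
    (∀ x y, f x ≤ z ^ hd x y * f y) → (∑ x, f x) * (∑ x, (f x)⁻¹) ≤ (z + 2 + z⁻¹) ^ n := by
  intro n
  induction n with
  | zero =>
    intro f hf _
    have : ∀ x : Fin 0 → Bool, x = default := fun x => Subsingleton.elim _ _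
    simp only [Finset.univ_unique, Finset.sum_singleton, pow_zero]
    rw [mul_inv_cancel₀ (hf _).ne']
  | succ n ih =>
    intro f hf hL
    have hz0 : 0 < z := by linarith
    rw [sum_cons f, sum_cons (fun x => (f x)⁻¹)]
    have h0 := ih (fun y => f (Fin.cons false y)) (fun y => hf _) (fun x y => by
      have := hL (Fin.cons false x) (Fin.cons false y)
      rw [hd_cons] at this
      simpa using this)
    have h1 := ih (fun y => f (Fin.cons true y)) (fun y => hf _) (fun x y => by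
      have := hL (Fin.cons true x) (Fin.cons true y)
      rw [hd_cons] at this
      simpa using this)
    have h01 : ∀ y : Fin n → Bool, f (Fin.cons false y) ≤ z * f (Fin.cons true y) := by
      intro y
      have := hL (Fin.cons false y) (Fin.cons true y)
      rw [hd_cons] at this
      have e : hd y y = 0 := by unfold hd; simp
      rw [e] at this
      simpa using this
    have h10 : ∀ y : Fin n → Bool, f (Fin.cons true y) ≤ z * f (Fin.cons false y) := by
      intro y
      have := hL (Fin.cons true y) (Fin.cons false y)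
      rw [hd_cons] at this
      have e : hd y y = 0 := by unfold hd; simp
      rw [e] at this
      simpa using this
    set P0 := ∑ y : Fin n → Bool, f (Fin.cons false y) with hP0
    set P1 := ∑ y : Fin n → Bool, f (Fin.cons true y) with hP1
    set Q0 := ∑ y : Fin n → Bool, (f (Fin.cons false y))⁻¹ with hQ0
    set Q1 := ∑ y : Fin n → Bool, (f (Fin.cons true y))⁻¹ with hQ1
    set K := (z + 2 + z⁻¹) ^ n with hK
    have hP01 : P0 ≤ z * P1 := by
      rw [hP0, hP1, Finset.mul_sum]; exact Finset.sum_le_sum (fun y _ => h01 y)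
    have hP10 : P1 ≤ z * P0 := by
      rw [hP0, hP1, Finset.mul_sum]; exact Finset.sum_le_sum (fun y _ => h10 y)
    have hP0p : 0 < P0 := Finset.sum_pos (fun y _ => hf _) Finset.univ_nonempty
    have hP1p : 0 < P1 := Finset.sum_pos (fun y _ => hf _) Finset.univ_nonempty
    have hQ0p : 0 < Q0 := Finset.sum_pos (fun y _ => inv_pos.2 (hf _)) Finset.univ_nonempty
    have hQ1p : 0 < Q1 := Finset.sum_pos (fun y _ => inv_pos.2 (hf _)) Finset.univ_nonempty
    have hKp : 0 < K := by rw [hK]; positivity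
    have e0 : P0 * Q0 ≤ K := h0
    have e1 : P1 * Q1 ≤ K := h1
    -- the ratio
    set u := P1 / P0 with hu
    have hup : 0 < u := by positivity
    have hu1 : u ≤ z := by rw [hu, div_le_iff₀ hP0p]; linarith
    have hu2 : z⁻¹ ≤ u := by
      rw [hu, le_div_iff₀ hP0p, inv_mul_le_iff₀ hz0]; linarith
    have f1 : P1 * Q0 ≤ K * u := by
      have : P1 * Q0 = u * (P0 * Q0) := by rw [hu]; field_simp
      rw [this, mul_comm K]
      gcongr
    have f2 : P0 * Q1 ≤ K * u⁻¹ := by
      have : P0 * Q1 = u⁻¹ * (P1 * Q1) := by rw [hu]; field_simp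
      rw [this, mul_comm K]
      gcongr
    have f3 : u + u⁻¹ ≤ z + z⁻¹ := by
      have h2 : 0 ≤ (z - u) * (u - z⁻¹) := mul_nonneg (by linarith) (by linarith)
      have h3 : (z - u) * (u - z⁻¹) = u * (z + z⁻¹ - u - u⁻¹) := by
        field_simp
        ring
      rw [h3] at h2
      have := (mul_nonneg_iff_of_pos_left hup).1 h2
      linarith
    calc (P0 + P1) * (Q0 + Q1) = P0 * Q0 + P1 * Q1 + (P0 * Q1 + P1 * Q0) := by ring
      _ ≤ K + K + (K * u⁻¹ + K * u) := by gcongr
      _ = K * (2 + (u + u⁻¹)) := by ring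
      _ ≤ K * (2 + (z + z⁻¹)) := by gcongr
      _ = _ := by rw [pow_succ, ← hK]; ring

/-- A family of diameter at most `D`. -/
theorem diam_bound {n : ℕ} (G : Finset (Fin n → Bool)) (D : ℕ) (hDn : D ≤ n) (hG : ∀ A ∈ G, ∀ B ∈ G, hd A B ≤ D)
    (z : ℝ) (hz : 1 ≤ z) : (G.card : ℝ) ^ 2 * z ^ (n - D) ≤ (z + 2 + z⁻¹) ^ n := by
  classical
  have hz0 : 0 < z := by linarith
  rcases G.eq_empty_or_nonempty with he | hne
  · rw [he]; simp; positivity
  let m : (Fin n → Bool) → ℕ := fun x => G.inf' hne (fun a => hd x a)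
  have hm1 : ∀ x, ∀ a ∈ G, m x ≤ hd x a := fun x a ha => Finset.inf'_le _ ha
  have hm2 : ∀ x, ∃ a ∈ G, m x = hd x a := fun x => Finset.exists_mem_eq_inf' hne _
  have hlip : ∀ x y, z ^ m x ≤ z ^ hd x y * z ^ m y := by
    intro x y
    obtain ⟨a, ha, hay⟩ := hm2 y
    rw [← pow_add]
    apply pow_le_pow_right₀ hz
    rw [hay]
    exact le_trans (hm1 x a ha) (hd_triangle x y a)
  have key := lip_bound z hz n (fun x => z ^ m x) (fun x => by positivity) hlip
  have h1 : (G.card : ℝ) ≤ ∑ x, (z ^ m x)⁻¹ := by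
    calc (G.card : ℝ) = ∑ x ∈ G, 1 := by simp
      _ ≤ ∑ x ∈ G, (z ^ m x)⁻¹ := by
        apply Finset.sum_le_sum
        intro x hx
        have : m x = 0 := by
          have h2 := hm1 x x hx
          have e : hd x x = 0 := by unfold hd; simp
          omega
        rw [this]; simp
      _ ≤ _ := Finset.sum_le_sum_of_subset_of_nonneg (Finset.subset_univ _) (fun _ _ _ => by positivity)
  have hneg : ∀ b ∈ G, n - D ≤ m (fun i => !b i) := by
    intro b hb
    obtain ⟨a, ha, hba⟩ := hm2 (fun i => !b i)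
    rw [hba]
    have h3 : hd (fun i => !b i) a + hd b a = n := by
      unfold hd
      have h4 : (Finset.univ.filter (fun i => (!b i) ≠ a i)) = Finset.univ.filter (fun i => ¬ (b i ≠ a i)) := by
        apply Finset.filter_congr
        intro i _
        cases b i <;> cases a i <;> simp
      rw [h4, add_comm, Finset.card_filter_add_card_filter_not]
      simp
    have h5 := hG b hb a ha
    omega
  have h2 : (G.card : ℝ) * z ^ (n - D) ≤ ∑ x, z ^ m x := by
    calc (G.card : ℝ) * z ^ (n - D) = ∑ b ∈ G, z ^ (n - D) := by simp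
      _ ≤ ∑ b ∈ G, z ^ m (fun i => !b i) := by
        apply Finset.sum_le_sum
        intro b hb
        exact pow_le_pow_right₀ hz (hneg b hb)
      _ = ∑ x ∈ G.image (fun b i => !b i), z ^ m x := by
        rw [Finset.sum_image]
        intro b _ b' _ h
        funext i
        have := congrFun h i
        simpa using this
      _ ≤ _ := Finset.sum_le_sum_of_subset_of_nonneg (Finset.subset_univ _) (fun _ _ _ => by positivity)
  calc (G.card : ℝ) ^ 2 * z ^ (n - D) = ((G.card : ℝ) * z ^ (n - D)) * G.card := by ring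
    _ ≤ (∑ x, z ^ m x) * ∑ x, (z ^ m x)⁻¹ := by
      gcongr
    _ ≤ _ := key

/-- **Families of diameter at most `(1 - β) n`.** -/
theorem diam_exp {n : ℕ} (G : Finset (Fin n → Bool)) (D : ℕ) (β : ℝ) (hβ : 0 ≤ β) (hD : (D : ℝ) ≤ (1 - β) * n)
    (hG : ∀ A ∈ G, ∀ B ∈ G, hd A B ≤ D) : (G.card : ℝ) ≤ 2 ^ n * Real.exp (-(β ^ 2 * n / 2)) := by
  have hDn : D ≤ n := by
    have : (D : ℝ) ≤ n := by
      have h0 : (0 : ℝ) ≤ β * n := by positivity
      nlinarith
    exact_mod_cast this
  have h1 := diam_bound G D hDn hG (Real.exp (2 * β)) (Real.one_le_exp (by linarith))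
  have h2 : Real.exp (2 * β) + 2 + (Real.exp (2 * β))⁻¹ = 4 * Real.cosh β ^ 2 := by
    rw [Real.cosh_eq, ← Real.exp_neg]
    have e1 : Real.exp (2 * β) = Real.exp β ^ 2 := by rw [← Real.exp_nat_mul]; norm_num
    have e2 : Real.exp (-(2 * β)) = Real.exp (-β) ^ 2 := by rw [← Real.exp_nat_mul]; congr 1; push_cast; ring
    have e3 : Real.exp β * Real.exp (-β) = 1 := by rw [← Real.exp_add]; simp
    rw [e1, e2]
    linear_combination (-2 : ℝ) * e3
  rw [h2] at h1
  have h3 : Real.cosh β ^ 2 ≤ Real.exp (β ^ 2) := by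
    have := Real.cosh_le_exp_half_sq β
    calc Real.cosh β ^ 2 ≤ Real.exp (β ^ 2 / 2) ^ 2 := by gcongr
      _ = _ := by rw [← Real.exp_nat_mul]; congr 1; push_cast; ring
  have h4 : Real.exp (2 * β * (β * n)) ≤ Real.exp (2 * β) ^ (n - D) := by
    rw [← Real.exp_nat_mul]
    apply Real.exp_le_exp.2
    rw [Nat.cast_sub hDn]
    have : β * n ≤ (n : ℝ) - D := by linarith
    nlinarith
  have h5 : (G.card : ℝ) ^ 2 * Real.exp (2 * β * (β * n)) ≤ 4 ^ n * Real.exp (β ^ 2 * n) := by
    calc (G.card : ℝ) ^ 2 * Real.exp (2 * β * (β * n)) ≤ (G.card : ℝ) ^ 2 * Real.exp (2 * β) ^ (n - D) := by gcongr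
      _ ≤ (4 * Real.cosh β ^ 2) ^ n := h1
      _ ≤ (4 * Real.exp (β ^ 2)) ^ n := by gcongr
      _ = 4 ^ n * Real.exp (β ^ 2 * n) := by
        rw [mul_pow, ← Real.exp_nat_mul, mul_comm (n : ℝ)]
  have h6 : (G.card : ℝ) ^ 2 ≤ (2 ^ n * Real.exp (-(β ^ 2 * n / 2))) ^ 2 := by
    have e1 : (2 ^ n * Real.exp (-(β ^ 2 * n / 2))) ^ 2 = 4 ^ n * Real.exp (-(β ^ 2 * n)) := by
      have e3 : ((2 : ℝ) ^ n) ^ 2 = 4 ^ n := by rw [← pow_mul, mul_comm n 2, pow_mul]; norm_num
      have e4 : (Real.exp (-(β ^ 2 * n / 2))) ^ 2 = Real.exp (-(β ^ 2 * n)) := by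
        rw [pow_two, ← Real.exp_add]
        congr 1; ring
      rw [mul_pow, e3, e4]
    rw [e1]
    have e2 : (0 : ℝ) < Real.exp (2 * β * (β * n)) := Real.exp_pos _
    rw [← mul_le_mul_iff_left₀ e2]
    refine le_trans h5 (le_of_eq ?_)
    rw [mul_assoc, ← Real.exp_add]
    have e5 : -(β ^ 2 * n) + 2 * β * (β * n) = β ^ 2 * (n : ℝ) := by ring
    rw [e5]
  exact (pow_le_pow_iff_left₀ (by positivity) (by positivity) (by norm_num)).1 h6

end Pool.Agent.L5helper18.TP
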