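import Mathlib

/-!
# Straight-line programs over the semiring (min, +)

Syntax, values, the monomials produced by a program, and the exchange lemma.
-/

namespace Pool.Agent.L5helper18.TP

open scoped NNReal

/-- An argument of the `i`-th operation of a program with inputs indexed by `E`: an input, a nonnegative constant, or
the result of an earlier operation. -/
inductive Arg (E : Type) (i : ℕ) : Type
  | var (e : E) : Arg E i
  | const (c : ℝ≥0) : Arg E i
  | gate (j : Fin i) : Arg E i

/-- A program with `i` operations, each the minimum or the sum of two arguments. -/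
inductive Prog (E : Type) : ℕ → Type
  | nil : Prog E 0
  | min {i : ℕ} (P : Prog E i) (a b : Arg E i) : Prog E (i + 1)
  | add {i : ℕ} (P : Prog E i) (a b : Arg E i) : Prog E (i + 1)

/-- The value of an argument, for the input `w` and the values `v` of the earlier operations. -/
def Arg.val {E : Type} {i : ℕ} (w : E → ℝ≥0) (v : Fin i → ℝ≥0) : Arg E i → ℝ≥0
  | .var e => w e
  | .const c => c
  | .gate j => v j

/-- The results of the operations for the input `w`. -/
def Prog.val {E : Type} (w : E → ℝ≥0) : {i : ℕ} → Prog E i → Fin i → ℝ≥0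
  | _, .nil => Fin.elim0
  | _, .min P a b => Fin.snoc (P.val w) (Min.min (a.val w (P.val w)) (b.val w (P.val w)))
  | _, .add P a b => Fin.snoc (P.val w) (a.val w (P.val w) + b.val w (P.val w))

/-- Whether the `j`-th operation is an addition. -/
def Prog.isAdd {E : Type} : {i : ℕ} → Prog E i → Fin i → Bool
  | _, .nil => Fin.elim0
  | _, .min P _ _ => Fin.snoc P.isAdd false
  | _, .add P _ _ => Fin.snoc P.isAdd true

/-- The number of additions of a program. -/
def Prog.adds {E : Type} : {i : ℕ} → Prog E i → ℕ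
  | _, .nil => 0
  | _, .min P _ _ => P.adds
  | _, .add P _ _ => P.adds + 1

theorem Prog.card_isAdd {E : Type} {i : ℕ} (P : Prog E i) :
    (Finset.univ.filter fun j => P.isAdd j = true).card = P.adds := by
  induction P with
  | nil => rfl
  | @min i P a b ih =>
    rw [Finset.card_filter] at ih ⊢
    rw [Fin.sum_univ_castSucc]
    simp only [Prog.isAdd, Fin.snoc_castSucc, Fin.snoc_last, Prog.adds]
    simpa using ih
  | @add i P a b ih =>
    rw [Finset.card_filter] at ih ⊢
    rw [Fin.sum_univ_castSucc]
    simp only [Prog.isAdd, Fin.snoc_castSucc, Fin.snoc_last, Prog.adds]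
    simpa using ih

/-- Monomials: exponent vector and constant. -/
abbrev Mo (E : Type) := (E → ℕ) × ℝ≥0

open Classical in
/-- The monomials produced by an argument. -/
noncomputable def Arg.mon {E : Type} {i : ℕ} (M : Fin i → Set (Mo E)) : Arg E i → Set (Mo E)
  | .var e => {(Pi.single e 1, 0)}
  | .const c => {(0, c)}
  | .gate j => M j

/-- The monomials produced by the operations. -/
noncomputable def Prog.mon {E : Type} : {i : ℕ} → Prog E i → Fin i → Set (Mo E)
  | _, .nil => Fin.elim0
  | _, .min P a b => Fin.snoc P.mon (a.mon P.mon ∪ b.mon P.mon)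
  | _, .add P a b => Fin.snoc P.mon {p | ∃ x ∈ a.mon P.mon, ∃ y ∈ b.mon P.mon, p = x + y}

/-- The value of a monomial. -/
noncomputable def ev {E : Type} [Fintype E] (w : E → ℝ≥0) (p : Mo E) : ℝ≥0 := ∑ e, (p.1 e : ℝ≥0) * w e + p.2

theorem ev_add {E : Type} [Fintype E] (w : E → ℝ≥0) (p q : Mo E) : ev w (p + q) = ev w p + ev w q := by
  unfold ev
  simp only [Prod.fst_add, Prod.snd_add, Pi.add_apply, Nat.cast_add, add_mul, Finset.sum_add_distrib]
  ring

/-- `v` is the minimum of the monomials in `S`. -/
def IsMin {E : Type} [Fintype E] (w : E → ℝ≥0) (S : Set (Mo E)) (v : ℝ≥0) : Prop :=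
  (∀ p ∈ S, v ≤ ev w p) ∧ ∃ p ∈ S, v = ev w p

theorem arg_isMin {E : Type} [Fintype E] (w : E → ℝ≥0) {i : ℕ} (P : Prog E i)
    (h : ∀ j, IsMin w (P.mon j) (P.val w j)) (a : Arg E i) : IsMin w (a.mon P.mon) (a.val w (P.val w)) := by
  classical
  cases a with
  | var e =>
    have h1 : ev w ((Pi.single e 1 : E → ℕ), (0 : ℝ≥0)) = w e := by
      unfold ev
      rw [Finset.sum_eq_single e]
      · simp
      · intro b _ hb
        simp [Pi.single_eq_of_ne hb]
      · intro h; exact absurd (Finset.mem_univ e) h
    have h2 : ((Pi.single e 1 : E → ℕ), (0 : ℝ≥0)) ∈ Arg.mon P.mon (Arg.var e) := by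
      simp only [Arg.mon, Set.mem_singleton_iff]
    refine ⟨?_, ⟨_, h2, ?_⟩⟩
    · intro p hp
      have : p = ((Pi.single e 1 : E → ℕ), (0 : ℝ≥0)) := by
        simp only [Arg.mon, Set.mem_singleton_iff] at hp
        rw [hp]
      rw [this, h1]; exact le_refl _
    · rw [h1]; rfl
  | const c =>
    have h1 : ev w ((0 : E → ℕ), c) = c := by
      unfold ev; simp
    refine ⟨?_, ⟨_, rfl, ?_⟩⟩
    · intro p hp
      have : p = ((0 : E → ℕ), c) := hp
      rw [this, h1]; exact le_refl _
    · rw [h1]; rfl
  | gate j => exact h j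

theorem prog_isMin {E : Type} [Fintype E] (w : E → ℝ≥0) {i : ℕ} (P : Prog E i) :
    ∀ j, IsMin w (P.mon j) (P.val w j) := by
  induction P with
  | nil => exact fun j => j.elim0
  | @min i P a b ih =>
    intro j
    refine Fin.lastCases ?_ (fun j => ?_) j
    · simp only [Prog.mon, Prog.val, Fin.snoc_last]
      obtain ⟨ha1, pa, hpa, ha2⟩ := arg_isMin w P ih a
      obtain ⟨hb1, pb, hpb, hb2⟩ := arg_isMin w P ih b
      refine ⟨?_, ?_⟩
      · rintro p (hp | hp)
        · exact le_trans (min_le_left _ _) (ha1 p hp)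
        · exact le_trans (min_le_right _ _) (hb1 p hp)
      · rcases le_total (a.val w (P.val w)) (b.val w (P.val w)) with h | h
        · exact ⟨pa, Or.inl hpa, by rw [min_eq_left h, ha2]⟩
        · exact ⟨pb, Or.inr hpb, by rw [min_eq_right h, hb2]⟩
    · simp only [Prog.mon, Prog.val, Fin.snoc_castSucc]
      exact ih j
  | @add i P a b ih =>
    intro j
    refine Fin.lastCases ?_ (fun j => ?_) j
    · simp only [Prog.mon, Prog.val, Fin.snoc_last]
      obtain ⟨ha1, pa, hpa, ha2⟩ := arg_isMin w P ih a
      obtain ⟨hb1, pb, hpb, hb2⟩ := arg_isMin w P ih b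
      refine ⟨?_, ?_⟩
      · rintro p ⟨x, hx, y, hy, rfl⟩
        rw [ev_add]
        exact add_le_add (ha1 x hx) (hb1 y hy)
      · exact ⟨pa + pb, ⟨pa, hpa, pb, hpb, rfl⟩, by rw [ev_add, ha2, hb2]⟩
    · simp only [Prog.mon, Prog.val, Fin.snoc_castSucc]
      exact ih j

/-- The size of a monomial on a set of inputs. -/
def size {E : Type} (U : Finset E) (p : Mo E) : ℕ := ∑ e ∈ U, p.1 e

theorem size_add {E : Type} (U : Finset E) (p q : Mo E) : size U (p + q) = size U p + size U q := by
  unfold size
  rw [← Finset.sum_add_distrib]; rfl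

/-- The result of the exchange lemma: `p` contains a part `x` produced by the addition `g`, of size between `T` and
`2 T`, which can be replaced by any other monomial produced by `g`. -/
def Cut {E : Type} {i : ℕ} (U : Finset E) (T : ℕ) (P : Prog E i) (S : Set (Mo E)) (p : Mo E) : Prop :=
  ∃ g : Fin i, P.isAdd g = true ∧ ∃ x y : Mo E, p = x + y ∧ x ∈ P.mon g ∧ T < size U x ∧ size U x ≤ 2 * T ∧
    ∀ z ∈ P.mon g, z + y ∈ S

theorem arg_cut {E : Type} {i : ℕ} (U : Finset E) (T : ℕ) (hT : 1 ≤ T) (P : Prog E i)
    (h : ∀ j, ∀ p ∈ P.mon j, T < size U p → Cut U T P (P.mon j) p) (a : Arg E i) :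
    ∀ p ∈ a.mon P.mon, T < size U p → Cut U T P (a.mon P.mon) p := by
  classical
  intro p hp hpT
  cases a with
  | var e =>
    exfalso
    simp only [Arg.mon, Set.mem_singleton_iff] at hp
    have h1 : size U p ≤ 1 := by
      rw [hp]
      unfold size
      calc ∑ x ∈ U, (Pi.single e 1 : E → ℕ) x ≤ ∑ x ∈ U, (if x = e then 1 else 0) := by
            apply Finset.sum_le_sum
            intro x _
            by_cases hx : x = e
            · subst hx; simp
            · simp [hx]
        _ ≤ 1 := by
            rw [Finset.sum_ite_eq']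
            split_ifs <;> omega
    omega
  | const c =>
    exfalso
    have h0 : p = ((0 : E → ℕ), c) := hp
    have h1 : size U p = 0 := by
      rw [h0]; unfold size; simp
    omega
  | gate j => exact h j p hp hpT

theorem prog_cut {E : Type} {i : ℕ} (U : Finset E) (T : ℕ) (hT : 1 ≤ T) (P : Prog E i) :
    ∀ j, ∀ p ∈ P.mon j, T < size U p → Cut U T P (P.mon j) p := by
  induction P with
  | nil => exact fun j => j.elim0
  | @min i P a b ih =>
    -- transfer of a cut of `P`
    have tr : ∀ (S S' : Set (Mo E)) (p : Mo E), S ⊆ S' → Cut U T P S p → Cut U T (P.min a b) S' p := by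
      rintro S S' p hS ⟨g, hg, x, y, h1, h2, h3, h4, h5⟩
      refine ⟨g.castSucc, ?_, x, y, h1, ?_, h3, h4, ?_⟩
      · simp only [Prog.isAdd, Fin.snoc_castSucc]; exact hg
      · simp only [Prog.mon, Fin.snoc_castSucc]; exact h2
      · simp only [Prog.mon, Fin.snoc_castSucc]
        intro z hz; exact hS (h5 z hz)
    intro j
    refine Fin.lastCases ?_ (fun j => ?_) j
    · intro p hp hpT
      simp only [Prog.mon, Fin.snoc_last] at hp ⊢
      rcases hp with hp | hp
      · exact tr _ _ _ Set.subset_union_left (arg_cut U T hT P ih a p hp hpT)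
      · exact tr _ _ _ Set.subset_union_right (arg_cut U T hT P ih b p hp hpT)
    · intro p hp hpT
      have e1 : (P.min a b).mon j.castSucc = P.mon j := by simp only [Prog.mon, Fin.snoc_castSucc]
      rw [e1] at hp ⊢
      exact tr _ _ _ (le_refl _) (ih j p hp hpT)
  | @add i P a b ih =>
    have tr : ∀ (S S' : Set (Mo E)) (p q : Mo E), (∀ z ∈ S, z + q ∈ S') → Cut U T P S p →
        Cut U T (P.add a b) S' (p + q) := by
      rintro S S' p q hS ⟨g, hg, x, y, h1, h2, h3, h4, h5⟩
      refine ⟨g.castSucc, ?_, x, y + q, ?_, ?_, h3, h4, ?_⟩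
      · simp only [Prog.isAdd, Fin.snoc_castSucc]; exact hg
      · rw [h1, add_assoc]
      · simp only [Prog.mon, Fin.snoc_castSucc]; exact h2
      · simp only [Prog.mon, Fin.snoc_castSucc]
        intro z hz
        rw [← add_assoc]
        exact hS _ (h5 z hz)
    intro j
    refine Fin.lastCases ?_ (fun j => ?_) j
    · intro p hp hpT
      have e1 : (P.add a b).mon (Fin.last i) = {p | ∃ x ∈ a.mon P.mon, ∃ y ∈ b.mon P.mon, p = x + y} := by
        simp only [Prog.mon, Fin.snoc_last]
      have hp' := hp
      rw [e1] at hp'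
      obtain ⟨x, hx, y, hy, rfl⟩ := hp'
      by_cases h1 : T < size U x
      · refine tr (a.mon P.mon) _ x y ?_ (arg_cut U T hT P ih a x hx h1)
        intro z hz
        rw [e1]; exact ⟨z, hz, y, hy, rfl⟩
      · by_cases h2 : T < size U y
        · rw [add_comm x y]
          refine tr (b.mon P.mon) _ y x ?_ (arg_cut U T hT P ih b y hy h2)
          intro z hz
          rw [e1]; exact ⟨x, hx, z, hz, add_comm _ _⟩
        · refine ⟨Fin.last i, ?_, x + y, 0, by rw [add_zero], hp, hpT, ?_, ?_⟩
          · simp only [Prog.isAdd, Fin.snoc_last]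
          · rw [size_add]; omega
          · intro z hz; rw [add_zero]; exact hz
    · intro p hp hpT
      have e1 : (P.add a b).mon j.castSucc = P.mon j := by simp only [Prog.mon, Fin.snoc_castSucc]
      rw [e1] at hp ⊢
      have := tr (P.mon j) (P.mon j) p 0 (fun z hz => by rw [add_zero]; exact hz) (ih j p hp hpT)
      rwa [add_zero] at this

end Pool.Agent.L5helper18.TP
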