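import Mathlib
import Pool.Agent.L5helper18.TP.Prog

/-!
# Programs over (min, +) for the least weight of the clauses falsified by an assignment
-/

namespace Pool.Agent.L5helper18.TP

open scoped NNReal

/-- The clauses with exactly `k` literals, in `k` different variables out of `n`. A literal is a pair `(i, b)`: the
variable `i` has the value `b`. -/
abbrev Clause (n k : ℕ) : Type :=
  {C : Finset (Fin n × Bool) // C.card = k ∧ ∀ i : Fin n, ¬ ((i, true) ∈ C ∧ (i, false) ∈ C)}

/-- The assignment `A` falsifies the clause `C`: all literals of `C` are false. -/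
def Falsifies {n k : ℕ} (A : Fin n → Bool) (C : Clause n k) : Prop := ∀ l ∈ C.1, A l.1 ≠ l.2

open Classical in
/-- The total weight of the clauses falsified by `A`. -/
noncomputable def cost {n k : ℕ} (w : Clause n k → ℝ≥0) (A : Fin n → Bool) : ℝ≥0 :=
  ∑ C : Clause n k, if Falsifies A C then w C else 0

/-- The least total weight of the clauses falsified by an assignment. -/
noncomputable def opt {n k : ℕ} (w : Clause n k → ℝ≥0) : ℝ≥0 := ⨅ A : Fin n → Bool, cost w A

/-- The clause on the variables in `S` falsified by `A`. -/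
def cl {n k : ℕ} (A : Fin n → Bool) (S : Finset (Fin n)) (hS : S.card = k) : Clause n k :=
  ⟨S.image (fun i => (i, !A i)), by
    rw [Finset.card_image_of_injective _ (fun a b h => (Prod.mk.inj h).1), hS], by
    rintro i ⟨h1, h2⟩
    rw [Finset.mem_image] at h1 h2
    obtain ⟨a, _, ha⟩ := h1
    obtain ⟨b, _, hb⟩ := h2
    obtain ⟨ha1, ha2⟩ := Prod.mk.inj ha
    obtain ⟨hb1, hb2⟩ := Prod.mk.inj hb
    rw [ha1] at ha2
    rw [hb1] at hb2
    rw [ha2] at hb2
    exact absurd hb2 (by decide)⟩

theorem falsifies_cl {n k : ℕ} (A D : Fin n → Bool) (S : Finset (Fin n)) (hS : S.card = k) :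
    Falsifies D (cl A S hS) ↔ ∀ i ∈ S, D i = A i := by
  unfold Falsifies cl
  constructor
  · intro h i hi
    have := h (i, !A i) (Finset.mem_image.2 ⟨i, hi, rfl⟩)
    simp only [ne_eq] at this
    cases h1 : D i <;> cases h2 : A i <;> simp_all
  · intro h l hl
    obtain ⟨i, hi, rfl⟩ := Finset.mem_image.1 hl
    simp only
    rw [h i hi]
    cases A i <;> simp

/-- Every clause falsified by `A` is `cl A S` for its set of variables. -/
theorem eq_cl {n k : ℕ} (A : Fin n → Bool) (C : Clause n k) (h : Falsifies A C) :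
    ∃ (S : Finset (Fin n)) (hS : S.card = k), C = cl A S hS := by
  have h1 : C.1 = (C.1.image Prod.fst).image (fun i => (i, !A i)) := by
    rw [Finset.image_image]
    ext l
    rw [Finset.mem_image]
    constructor
    · intro hl
      refine ⟨l, hl, ?_⟩
      have := h l hl
      apply Prod.ext
      · rfl
      · simp only [Function.comp]
        cases h1 : A l.1 <;> cases h2 : l.2 <;> simp_all
    · rintro ⟨l', hl', hl2⟩
      have := h l' hl'
      have h3 : l = l' := by
        rw [← hl2]
        apply Prod.ext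
        · rfl
        · simp only [Function.comp]
          cases h1 : A l'.1 <;> cases h2 : l'.2 <;> simp_all
      rw [h3]; exact hl'
  have h2 : (C.1.image Prod.fst).card = k := by
    have h3 := C.2.1
    rw [h1, Finset.card_image_of_injective _ (fun a b h => (Prod.mk.inj h).1)] at h3
    exact h3
  refine ⟨C.1.image Prod.fst, h2, ?_⟩
  apply Subtype.ext
  exact h1

open Classical in
/-- The clauses falsified by `A`. -/
noncomputable def F {n : ℕ} (k : ℕ) (A : Fin n → Bool) : Finset (Clause n k) :=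
  Finset.univ.filter (fun C => Falsifies A C)

theorem mem_F {n k : ℕ} (A : Fin n → Bool) (C : Clause n k) : C ∈ F k A ↔ Falsifies A C := by
  unfold F; simp

open Classical in
/-- The number of clauses falsified by two assignments. -/
theorem card_inter {n k : ℕ} (A B : Fin n → Bool) :
    (F k A ∩ F k B).card = (Finset.univ.filter (fun i => A i = B i)).card.choose k := by
  rw [← Finset.card_powersetCard]
  symm
  apply Finset.card_bij (fun S hS => cl A S (Finset.mem_powersetCard.1 hS).2)
  · intro S hS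
    rw [Finset.mem_inter, mem_F, mem_F, falsifies_cl, falsifies_cl]
    refine ⟨fun i _ => rfl, fun i hi => ?_⟩
    have := (Finset.mem_powersetCard.1 hS).1 hi
    rw [Finset.mem_filter] at this
    exact this.2.symm
  · intro S1 h1 S2 h2 h
    have h3 := congrArg Subtype.val h
    have h4 : S1.image (fun i => (i, !A i)) = S2.image (fun i => (i, !A i)) := h3
    exact Finset.image_injective (fun a b h => (Prod.mk.inj h).1) h4
  · intro C hC
    rw [Finset.mem_inter, mem_F, mem_F] at hC
    obtain ⟨S, hS, rfl⟩ := eq_cl A C hC.1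
    refine ⟨S, Finset.mem_powersetCard.2 ⟨?_, hS⟩, rfl⟩
    intro i hi
    rw [Finset.mem_filter]
    refine ⟨Finset.mem_univ _, ?_⟩
    have := (falsifies_cl A B S hS).1 hC.2 i hi
    exact this.symm

theorem card_F {n k : ℕ} (A : Fin n → Bool) : (F k A).card = n.choose k := by
  classical
  have := card_inter (k := k) A A
  rw [Finset.inter_self] at this
  rw [this]
  congr 1
  rw [Finset.filter_true_of_mem (fun _ _ => rfl)]
  simp

/-- Only `D = A` or `D = B` have all their falsified clauses in the union. -/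
theorem eq_or_eq {n k : ℕ} (hk : 2 ≤ k) (hkn : k ≤ n) (A B D : Fin n → Bool)
    (h : ∀ C : Clause n k, Falsifies D C → Falsifies A C ∨ Falsifies B C) : D = A ∨ D = B := by
  classical
  by_contra hcon
  push Not at hcon
  obtain ⟨h1, h2⟩ := hcon
  obtain ⟨i, hi⟩ := Function.ne_iff.1 h1
  obtain ⟨j, hj⟩ := Function.ne_iff.1 h2
  have h3 : ({i, j} : Finset (Fin n)).card ≤ k := le_trans Finset.card_le_two hk
  obtain ⟨S, hS1, hS2⟩ := Finset.exists_superset_card_eq h3 (by simpa using hkn)
  have h4 := h (cl D S hS2) ((falsifies_cl D D S hS2).2 (fun _ _ => rfl))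
  rcases h4 with h5 | h5
  · have := (falsifies_cl D A S hS2).1 h5 i (hS1 (by simp))
    exact hi this.symm
  · have := (falsifies_cl D B S hS2).1 h5 j (hS1 (by simp))
    exact hj this.symm

theorem eq_of {n k : ℕ} (hk : 2 ≤ k) (hkn : k ≤ n) (A D : Fin n → Bool)
    (h : ∀ C : Clause n k, Falsifies D C → Falsifies A C) : D = A := by
  rcases eq_or_eq hk hkn A A D (fun C hC => Or.inl (h C hC)) with h | h <;> exact h

/-- The result of a program for natural number weights. -/
noncomputable def out {n k s : ℕ} (P : Prog (Clause n k) s) (a : Arg (Clause n k) s) (w : Clause n k → ℕ) : ℝ≥0 :=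
  a.val (fun C => (w C : ℝ≥0)) (P.val fun C => (w C : ℝ≥0))

/-- The program never gives a value below the least weight. -/
def Over {n k s : ℕ} (P : Prog (Clause n k) s) (a : Arg (Clause n k) s) : Prop :=
  ∀ w : Clause n k → ℕ, opt (fun C => (w C : ℝ≥0)) ≤ out P a w

open Classical in
/-- The test weights for the assignment `A`. -/
noncomputable def testW {n : ℕ} (k : ℕ) (r : ℝ≥0) (A : Fin n → Bool) : Clause n k → ℕ :=
  fun C => if Falsifies A C then 1 else ⌊r * (n.choose k : ℕ)⌋₊ + 1

theorem opt_le {n k : ℕ} (w : Clause n k → ℝ≥0) (A : Fin n → Bool) : opt w ≤ cost w A :=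
  ciInf_le ⟨0, by rintro x ⟨A, rfl⟩; exact zero_le⟩ A

theorem le_opt {n k : ℕ} (w : Clause n k → ℝ≥0) (x : ℝ≥0) (h : ∀ A, x ≤ cost w A) : x ≤ opt w :=
  le_ciInf h

/-- (K1) Every produced monomial contains all the clauses falsified by some assignment. -/
theorem K1 {n k s : ℕ} {P : Prog (Clause n k) s} {a : Arg (Clause n k) s} (h : Over P a)
    (p : Mo (Clause n k)) (hp : p ∈ a.mon P.mon) : ∃ D, ∀ C, Falsifies D C → p.1 C ≠ 0 := by
  classical
  by_contra hcon
  push Not at hcon
  obtain ⟨L, hL⟩ := exists_nat_gt (p.2 : ℝ≥0)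
  let w : Clause n k → ℕ := fun C => if p.1 C = 0 then L else 0
  have h1 := h w
  unfold out at h1
  have h2 := (arg_isMin (fun C => (w C : ℝ≥0)) P (prog_isMin _ P) a).1 p hp
  have h3 : ev (fun C => (w C : ℝ≥0)) p = p.2 := by
    unfold ev
    rw [Finset.sum_eq_zero, zero_add]
    intro C _
    by_cases hC : p.1 C = 0
    · simp [hC]
    · simp [w, hC]
  have h4 : (L : ℝ≥0) ≤ opt (fun C => (w C : ℝ≥0)) := by
    apply le_opt
    intro D
    obtain ⟨C, hC1, hC2⟩ := hcon D
    unfold cost
    calc (L : ℝ≥0) = if Falsifies D C then ((w C : ℕ) : ℝ≥0) else 0 := by simp [hC1, w, hC2]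
      _ ≤ _ := Finset.single_le_sum (f := fun C => if Falsifies D C then ((w C : ℕ) : ℝ≥0) else 0)
          (fun _ _ => zero_le) (Finset.mem_univ C)
  have h5 := le_trans h4 (le_trans h1 h2)
  rw [h3] at h5
  exact absurd h5 (not_le.2 hL)

/-- (K2) A produced monomial for every assignment. -/
theorem K2 {n k s : ℕ} (hk : 2 ≤ k) (hkn : k ≤ n) {r : ℝ≥0} {P : Prog (Clause n k) s} {a : Arg (Clause n k) s}
    (h : Over P a) (A : Fin n → Bool)
    (hA : out P a (testW k r A) ≤ r * opt (fun C => (testW k r A C : ℝ≥0))) :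
    ∃ p ∈ a.mon P.mon, (∀ C, p.1 C ≠ 0 ↔ Falsifies A C) ∧
      ((∑ C ∈ F k A, p.1 C : ℕ) : ℝ≥0) ≤ r * (n.choose k : ℕ) := by
  classical
  set L := ⌊r * (n.choose k : ℕ)⌋₊ + 1 with hLdef
  have hL : (r * (n.choose k : ℕ) : ℝ≥0) < (L : ℕ) := by
    rw [hLdef]; push_cast; exact Nat.lt_floor_add_one _
  let w : Clause n k → ℕ := testW k r A
  have hw : ∀ C, w C = if Falsifies A C then 1 else L := fun C => rfl
  have h1 := hA
  unfold out at h1
  obtain ⟨_, p, hp, hpe⟩ := arg_isMin (fun C => (w C : ℝ≥0)) P (prog_isMin _ P) a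
  rw [hpe] at h1
  have h2 : opt (fun C => (w C : ℝ≥0)) ≤ (n.choose k : ℕ) := by
    refine le_trans (opt_le _ A) ?_
    unfold cost
    rw [← card_F (k := k) A]
    unfold F
    rw [Finset.card_filter]
    push_cast
    apply Finset.sum_le_sum
    intro C _
    by_cases hC : Falsifies A C
    · simp [hC, hw]
    · simp [hC]
  have h3 : ev (fun C => (w C : ℝ≥0)) p ≤ r * (n.choose k : ℕ) := le_trans h1 (by gcongr)
  have h4 : ∀ C, p.1 C ≠ 0 → Falsifies A C := by
    intro C hC
    by_contra hC2
    have h5 : (L : ℝ≥0) ≤ ev (fun C => (w C : ℝ≥0)) p := by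
      unfold ev
      calc (L : ℝ≥0) ≤ (p.1 C : ℝ≥0) * ((w C : ℕ) : ℝ≥0) := by
            have : (1 : ℝ≥0) ≤ (p.1 C : ℝ≥0) := by exact_mod_cast Nat.one_le_iff_ne_zero.2 hC
            rw [hw, if_neg hC2]
            exact le_mul_of_one_le_left (zero_le) this
        _ ≤ ∑ C, (p.1 C : ℝ≥0) * ((w C : ℕ) : ℝ≥0) :=
            Finset.single_le_sum (f := fun C => (p.1 C : ℝ≥0) * ((w C : ℕ) : ℝ≥0)) (fun _ _ => zero_le)
              (Finset.mem_univ C)
        _ ≤ _ := le_add_of_nonneg_right (zero_le)
    exact absurd (le_trans h5 h3) (not_le.2 hL)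
  obtain ⟨D, hD⟩ := K1 h p hp
  have hDA : D = A := eq_of hk hkn A D (fun C hC => h4 C (hD C hC))
  refine ⟨p, hp, fun C => ⟨h4 C, fun hC => hD C (hDA ▸ hC)⟩, le_trans ?_ h3⟩
  unfold ev
  push_cast
  calc ∑ C ∈ F k A, (p.1 C : ℝ≥0) = ∑ C ∈ F k A, (p.1 C : ℝ≥0) * ((w C : ℕ) : ℝ≥0) := by
        apply Finset.sum_congr rfl
        intro C hC
        rw [mem_F] at hC
        simp [hw, hC]
    _ ≤ ∑ C, (p.1 C : ℝ≥0) * ((w C : ℕ) : ℝ≥0) :=
        Finset.sum_le_sum_of_subset_of_nonneg (Finset.subset_univ _) (fun _ _ _ => zero_le)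
    _ ≤ _ := le_add_of_nonneg_right (zero_le)

/-- The cut of the monomial of an assignment. -/
theorem exists_cut {n k s : ℕ} (hk : 2 ≤ k) (hkn : k ≤ n) {r : ℝ≥0} {P : Prog (Clause n k) s}
    {a : Arg (Clause n k) s} (h : Over P a) (T : ℕ) (hT : 1 ≤ T)
    (hT2 : (3 * T : ℝ) ≤ (2 - r) * (n.choose k : ℕ)) (A : Fin n → Bool)
    (hA : out P a (testW k r A) ≤ r * opt (fun C => (testW k r A C : ℝ≥0))) :
    ∃ g : Fin s, P.isAdd g = true ∧ ∃ x y : Mo (Clause n k), x ∈ P.mon g ∧ (∀ z ∈ P.mon g, z + y ∈ a.mon P.mon) ∧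
      (∀ C, x.1 C ≠ 0 → C ∈ F k A) ∧ (∀ C, y.1 C ≠ 0 → C ∈ F k A) ∧
      ∃ X Y : Finset (Clause n k), X ⊆ F k A ∧ Y ⊆ F k A ∧ (∀ C ∈ X, x.1 C = 0) ∧ (∀ C ∈ Y, y.1 C = 0) ∧
        T ≤ X.card ∧ T ≤ Y.card := by
  classical
  obtain ⟨p, hp, hp1, hp2⟩ := K2 hk hkn h A hA
  set m := n.choose k with hm
  let U := (F k A).filter (fun C => p.1 C = 1)
  have hge1 : ∀ C ∈ F k A, 1 ≤ p.1 C := by
    intro C hC
    rw [mem_F] at hC
    exact Nat.one_le_iff_ne_zero.2 ((hp1 C).2 hC)
  -- the number of inputs which occur once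
  have hU : (3 * T : ℝ) ≤ U.card := by
    have h1 : 2 * (F k A).card ≤ ∑ C ∈ F k A, p.1 C + U.card := by
      have h2 : U.card = ∑ C ∈ F k A, (if p.1 C = 1 then 1 else 0) := by
        rw [Finset.card_filter]
      rw [h2, ← Finset.sum_add_distrib]
      calc 2 * (F k A).card = ∑ C ∈ F k A, 2 := by rw [Finset.sum_const, smul_eq_mul, mul_comm]
        _ ≤ _ := by
          apply Finset.sum_le_sum
          intro C hC
          have := hge1 C hC
          split_ifs <;> omega
    rw [card_F] at h1
    have h3 : (2 * (m : ℝ)) ≤ ((∑ C ∈ F k A, p.1 C : ℕ) : ℝ) + U.card := by exact_mod_cast h1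
    have h4 : ((∑ C ∈ F k A, p.1 C : ℕ) : ℝ) ≤ r * m := by exact_mod_cast hp2
    linarith
  have hU' : 3 * T ≤ U.card := by exact_mod_cast hU
  have hsize : size U p = U.card := by
    unfold size
    rw [Finset.card_eq_sum_ones]
    apply Finset.sum_congr rfl
    intro C hC
    exact (Finset.mem_filter.1 hC).2
  have hcut := arg_cut U T hT P (prog_cut U T hT P) a p hp (by rw [hsize]; omega)
  obtain ⟨g, hg, x, y, hxy, hx, hx1, hx2, hex⟩ := hcut
  have hsum : ∀ C, p.1 C = x.1 C + y.1 C := by
    intro C; rw [hxy]; rfl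
  refine ⟨g, hg, x, y, hx, hex, ?_, ?_, U.filter (fun C => x.1 C = 0), U.filter (fun C => y.1 C = 0), ?_, ?_, ?_, ?_, ?_, ?_⟩
  · intro C hC
    rw [mem_F]
    apply (hp1 C).1
    rw [hsum C]; omega
  · intro C hC
    rw [mem_F]
    apply (hp1 C).1
    rw [hsum C]; omega
  · exact (Finset.filter_subset _ _).trans (Finset.filter_subset _ _)
  · exact (Finset.filter_subset _ _).trans (Finset.filter_subset _ _)
  · intro C hC; exact (Finset.mem_filter.1 hC).2
  · intro C hC; exact (Finset.mem_filter.1 hC).2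
  · -- `U.card = size U x + #{x = 0}`
    have h1 : ∑ C ∈ U, 1 = size U x + (U.filter (fun C => x.1 C = 0)).card := by
      unfold size
      rw [Finset.card_filter (fun C => x.1 C = 0) U, ← Finset.sum_add_distrib]
      apply Finset.sum_congr rfl
      intro C hC
      have h2 := (Finset.mem_filter.1 hC).2
      have h3 := hsum C
      split_ifs <;> omega
    rw [← Finset.card_eq_sum_ones] at h1
    omega
  · have h1 : size U x ≤ (U.filter (fun C => y.1 C = 0)).card := by
      unfold size
      rw [Finset.card_filter]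
      apply Finset.sum_le_sum
      intro C hC
      have h2 := (Finset.mem_filter.1 hC).2
      have h3 := hsum C
      split_ifs <;> omega
    omega

/-- **The number of additions.** -/
theorem main {n k s : ℕ} (hk : 2 ≤ k) (hkn : k ≤ n) {r : ℝ≥0} {P : Prog (Clause n k) s}
    {a : Arg (Clause n k) s} (h : Over P a) (T : ℕ) (hT : 1 ≤ T)
    (hT2 : (3 * T : ℝ) ≤ (2 - r) * (n.choose k : ℕ)) (d : ℕ)
    (hd : ∀ j, j ≤ n → T ≤ (n - j).choose k → j ≤ d) (N : ℕ)
    (hN : ∀ H : Finset (Fin n → Bool), (∀ A ∈ H, ∀ B ∈ H, (Finset.univ.filter (fun i => A i ≠ B i)).card ≤ d) →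
      H.card ≤ N) (G : Finset (Fin n → Bool))
    (hG : ∀ A ∈ G, out P a (testW k r A) ≤ r * opt (fun C => (testW k r A C : ℝ≥0))) :
    G.card ≤ P.adds * N := by
  classical
  choose g hg x y hx hex hxF hyF X Y hXF hYF hX hY hXT hYT using
    (fun A : G => exists_cut hk hkn h T hT hT2 A.1 (hG A.1 A.2))
  -- two assignments with the same cut are close
  have hclose : ∀ A B : G, g A = g B → (Finset.univ.filter (fun i => A.1 i ≠ B.1 i)).card ≤ d := by
    intro A B hAB
    have h1 : x A + y B ∈ a.mon P.mon := by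
      apply hex B
      rw [← hAB]; exact hx A
    obtain ⟨D, hD⟩ := K1 h _ h1
    have h2 : ∀ C, Falsifies D C → (x A).1 C ≠ 0 ∨ (y B).1 C ≠ 0 := by
      intro C hC
      have h3 := hD C hC
      have h4 : (x A + y B).1 C = (x A).1 C + (y B).1 C := rfl
      rw [h4] at h3
      omega
    have h3 : D = A.1 ∨ D = B.1 := by
      apply eq_or_eq hk hkn
      intro C hC
      rcases h2 C hC with h4 | h4
      · left; rw [← mem_F]; exact hxF A C h4
      · right; rw [← mem_F]; exact hyF B C h4
    have h4 : T ≤ (F k A.1 ∩ F k B.1).card := by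
      rcases h3 with h3 | h3
      · rw [h3] at h2
        refine le_trans (hXT A) (Finset.card_le_card ?_)
        intro C hC
        have hCF := hXF A hC
        rw [Finset.mem_inter]
        refine ⟨hCF, ?_⟩
        rcases h2 C ((mem_F A.1 C).1 hCF) with h5 | h5
        · exact absurd (hX A C hC) h5
        · exact hyF B C h5
      · rw [h3] at h2
        refine le_trans (hYT B) (Finset.card_le_card ?_)
        intro C hC
        have hCF := hYF B hC
        rw [Finset.mem_inter]
        refine ⟨?_, hCF⟩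
        rcases h2 C ((mem_F B.1 C).1 hCF) with h5 | h5
        · exact hxF A C h5
        · exact absurd (hY B C hC) h5
    rw [card_inter] at h4
    have h5 : (Finset.univ.filter (fun i => A.1 i = B.1 i)).card + (Finset.univ.filter (fun i => A.1 i ≠ B.1 i)).card = n := by
      rw [Finset.card_filter_add_card_filter_not]
      simp
    have h6 := hd (Finset.univ.filter (fun i => A.1 i ≠ B.1 i)).card (by omega) (by
      rw [show n - (Finset.univ.filter (fun i => A.1 i ≠ B.1 i)).card = (Finset.univ.filter (fun i => A.1 i = B.1 i)).card by omega]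
      exact h4)
    exact h6
  -- counting
  have hcount : (Finset.univ : Finset G).card ≤ (Finset.univ.filter fun j => P.isAdd j = true).card * N := by
    rw [mul_comm]
    apply Finset.card_le_mul_card_image_of_maps_to (f := g)
    · intro A _
      rw [Finset.mem_filter]; exact ⟨Finset.mem_univ _, hg A⟩
    · intro j _
      have h1 := hN ((Finset.univ.filter (fun A => g A = j)).map (Function.Embedding.subtype _)) (by
        intro A hA B hB
        rw [Finset.mem_map] at hA hB
        obtain ⟨A', hA', rfl⟩ := hA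
        obtain ⟨B', hB', rfl⟩ := hB
        exact hclose A' B' (by rw [(Finset.mem_filter.1 hA').2, (Finset.mem_filter.1 hB').2]))
      rw [Finset.card_map] at h1
      exact h1
  rw [P.card_isAdd] at hcount
  simpa using hcount

end Pool.Agent.L5helper18.TP
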