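import Mathlib
import Pool.Agent.L5helper18.TP.Sat
import Pool.Agent.L5helper18.TP.Diam

/-!
# Exponential lower bounds for randomised programs
-/

namespace Pool.Agent.L5helper18.TP

open scoped NNReal

theorem descFactorial_le (m n k : ℕ) (h : m ≤ n) : m.descFactorial k * n ^ k ≤ n.descFactorial k * m ^ k := by
  induction k with
  | zero => simp
  | succ k ih =>
    have h1 : (m - k) * n ≤ (n - k) * m := by
      rcases Nat.lt_or_ge m k with h2 | h2
      · have : m - k = 0 := by omega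
        rw [this]; simp
      · obtain ⟨a, rfl⟩ := Nat.exists_eq_add_of_le h2
        obtain ⟨b, rfl⟩ := Nat.exists_eq_add_of_le (le_trans h2 h)
        have e1 : k + a - k = a := by omega
        have e2 : k + b - k = b := by omega
        rw [e1, e2]
        have h3 : a ≤ b := by omega
        nlinarith
    rw [Nat.descFactorial_succ, Nat.descFactorial_succ, pow_succ, pow_succ]
    calc (m - k) * m.descFactorial k * (n ^ k * n) = ((m - k) * n) * (m.descFactorial k * n ^ k) := by ring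
      _ ≤ ((n - k) * m) * (n.descFactorial k * m ^ k) := Nat.mul_le_mul h1 ih
      _ = _ := by ring

theorem choose_le (m n k : ℕ) (h : m ≤ n) : m.choose k * n ^ k ≤ n.choose k * m ^ k := by
  have h1 := descFactorial_le m n k h
  rw [Nat.descFactorial_eq_factorial_mul_choose, Nat.descFactorial_eq_factorial_mul_choose] at h1
  have h2 : 0 < k.factorial := Nat.factorial_pos k
  have h3 : k.factorial * (m.choose k * n ^ k) ≤ k.factorial * (n.choose k * m ^ k) := by
    calc k.factorial * (m.choose k * n ^ k) = k.factorial * m.choose k * n ^ k := by ring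
      _ ≤ _ := h1
      _ = _ := by ring
  exact Nat.le_of_mul_le_mul_left h3 h2

/-- The volume of a ball. -/
theorem ball_le (n d : ℕ) (x : ℝ) (hx : 0 < x) (hx1 : x ≤ 1) :
    ((∑ i ∈ Finset.range (d + 1), n.choose i : ℕ) : ℝ) * x ^ d ≤ (1 + x) ^ n := by
  push_cast
  rw [Finset.sum_mul]
  have h1 : ∀ i ∈ Finset.range (d + 1), (n.choose i : ℝ) * x ^ d ≤ (n.choose i : ℝ) * x ^ i := by
    intro i hi
    have : i ≤ d := by have := Finset.mem_range.1 hi; omega
    exact mul_le_mul_of_nonneg_left (pow_le_pow_of_le_one hx.le hx1 this) (by positivity)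
  refine le_trans (Finset.sum_le_sum h1) ?_
  have h2 : (1 + x) ^ n = ∑ i ∈ Finset.range (n + 1), (n.choose i : ℝ) * x ^ i := by
    rw [add_comm, add_pow]
    apply Finset.sum_congr rfl
    intro i _
    rw [one_pow]; ring
  rw [h2]
  rcases Nat.le_total d n with h | h
  · apply Finset.sum_le_sum_of_subset_of_nonneg
    · intro i hi
      rw [Finset.mem_range] at hi ⊢; omega
    · intro i _ _; positivity
  · rw [← Finset.sum_subset (s₁ := Finset.range (n + 1)) (s₂ := Finset.range (d + 1))]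
    · intro i hi
      rw [Finset.mem_range] at hi ⊢; omega
    · intro i _ hi2
      rw [Finset.mem_range] at hi2
      rw [Nat.choose_eq_zero_of_lt (by omega)]; simp

/-- A family of diameter at most `d` lies in a ball. -/
theorem ball_family {n : ℕ} (d : ℕ) (H : Finset (Fin n → Bool)) (hH : ∀ A ∈ H, ∀ B ∈ H, hd A B ≤ d) :
    H.card ≤ ∑ i ∈ Finset.range (d + 1), n.choose i := by
  classical
  rcases H.eq_empty_or_nonempty with he | ⟨A, hA⟩
  · rw [he]; simp
  · have h1 : (Finset.range (d + 1)).sum (fun i => n.choose i) =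
        ((Finset.range (d + 1)).biUnion (fun i => (Finset.univ : Finset (Fin n)).powersetCard i)).card := by
      rw [Finset.card_biUnion]
      · apply Finset.sum_congr rfl
        intro i _
        rw [Finset.card_powersetCard]; simp
      · intro i _ j _ hij
        exact Finset.pairwise_disjoint_powersetCard _ hij
    rw [h1]
    apply Finset.card_le_card_of_injOn (fun B => Finset.univ.filter (fun i => A i ≠ B i))
    · intro B hB
      simp only [Finset.coe_biUnion, Set.mem_iUnion, Finset.mem_coe, Finset.mem_range]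
      refine ⟨hd A B, ?_, ?_⟩
      · have := hH A hA B hB; omega
      · rw [Finset.mem_powersetCard]
        exact ⟨Finset.subset_univ _, rfl⟩
    · intro B _ B' _ h
      funext i
      have h2 : (i ∈ Finset.univ.filter (fun i => A i ≠ B i)) ↔ (i ∈ Finset.univ.filter (fun i => A i ≠ B' i)) := by
        have h' : Finset.univ.filter (fun i => A i ≠ B i) = Finset.univ.filter (fun i => A i ≠ B' i) := h
        rw [h']
      simp only [Finset.mem_filter, Finset.mem_univ, true_and] at h2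
      have h3 : ∀ u v v' : Bool, ((u ≠ v) ↔ (u ≠ v')) → v = v' := by decide
      exact h3 _ _ _ h2

/-- The lower bound with real parameters. -/
theorem lower {n k s : ℕ} (hk : 2 ≤ k) (hkn : k ≤ n) {r : ℝ≥0} {P : Prog (Clause n k) s}
    {a : Arg (Clause n k) s} (h : Over P a) (ρ δ V : ℝ) (hρ : 0 < ρ)
    (hT : ρ * (n.choose k : ℕ) + 1 ≤ (2 - r) / 3 * (n.choose k : ℕ)) (hδ0 : 0 ≤ δ)
    (hδ : (1 - δ) ^ k ≤ ρ)
    (hV : ∀ H : Finset (Fin n → Bool), (∀ A ∈ H, ∀ B ∈ H, hd A B ≤ ⌊δ * n⌋₊) → (H.card : ℝ) ≤ V)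
    (G : Finset (Fin n → Bool))
    (hG : ∀ A ∈ G, out P a (testW k r A) ≤ r * opt (fun C => (testW k r A C : ℝ≥0))) :
    (G.card : ℝ) ≤ (P.adds : ℝ) * V := by
  have hn : 0 < n := by omega
  have hnR : (0 : ℝ) < n := by exact_mod_cast hn
  set T := ⌊(2 - (r : ℝ)) / 3 * (n.choose k : ℕ)⌋₊ with hTdef
  have hm1 : (0 : ℝ) < (n.choose k : ℕ) := by exact_mod_cast Nat.choose_pos hkn
  have hTle : (T : ℝ) ≤ (2 - (r : ℝ)) / 3 * (n.choose k : ℕ) := Nat.floor_le (by
    have : 0 < ρ * (n.choose k : ℕ) := by positivity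
    linarith)
  have hTgt : ρ * (n.choose k : ℕ) < T := by
    have := Nat.lt_floor_add_one ((2 - (r : ℝ)) / 3 * (n.choose k : ℕ))
    rw [← hTdef] at this
    linarith
  have hT1 : 1 ≤ T := by
    have h1 : (0 : ℝ) < T := lt_trans (by positivity) hTgt
    exact_mod_cast h1
  have hV0 : 0 ≤ V := by simpa using hV ∅ (by simp)
  have key := main hk hkn h T hT1 (by linarith) ⌊δ * n⌋₊ (by
    intro j hj hTj
    by_contra hcon
    push Not at hcon
    have h1 : δ * n < j := (Nat.floor_lt (by positivity)).1 hcon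
    have h2 : ((n - j : ℕ) : ℝ) < (1 - δ) * n := by
      rw [Nat.cast_sub hj]; linarith
    have h3 : ((n - j : ℕ) : ℝ) ^ k < ((1 - δ) * n) ^ k := pow_lt_pow_left₀ h2 (by positivity) (by omega)
    have h4 := choose_le (n - j) n k (by omega)
    have h5 : ((n - j).choose k : ℝ) * (n : ℝ) ^ k ≤ (n.choose k : ℝ) * ((n - j : ℕ) : ℝ) ^ k := by exact_mod_cast h4
    have h6 : ρ * (n.choose k : ℝ) < ((n - j).choose k : ℝ) := by
      have : (T : ℝ) ≤ ((n - j).choose k : ℝ) := by exact_mod_cast hTj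
      linarith
    have h7 : ρ * (n.choose k : ℝ) * (n : ℝ) ^ k < (n.choose k : ℝ) * (ρ * (n : ℝ) ^ k) := by
      calc ρ * (n.choose k : ℝ) * (n : ℝ) ^ k < ((n - j).choose k : ℝ) * (n : ℝ) ^ k := by gcongr
        _ ≤ (n.choose k : ℝ) * ((n - j : ℕ) : ℝ) ^ k := h5
        _ ≤ (n.choose k : ℝ) * ((1 - δ) * n) ^ k := by gcongr
        _ ≤ (n.choose k : ℝ) * (ρ * (n : ℝ) ^ k) := by
          rw [mul_pow]
          gcongr
    nlinarith) ⌊V⌋₊ (fun H hH => Nat.le_floor (hV H hH)) G hG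
  have hk2 : (G.card : ℝ) ≤ (P.adds : ℝ) * (⌊V⌋₊ : ℝ) := by exact_mod_cast key
  refine le_trans hk2 ?_
  gcongr
  exact Nat.floor_le hV0

/-- A complete program: operations and output. -/
structure Program (n k : ℕ) where
  s : ℕ
  P : Prog (Clause n k) s
  a : Arg (Clause n k) s

/-- The output of the program for natural number weights. -/
noncomputable def Program.out {n k : ℕ} (Q : Program n k) (w : Clause n k → ℕ) : ℝ≥0 := TP.out Q.P Q.a w

/-- The number of additions. -/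
def Program.adds {n k : ℕ} (Q : Program n k) : ℕ := Q.P.adds

/-- The randomised program never gives a value below the least weight, and for all weights its value is at most `r`
times the least weight with probability at least `q`. -/
def RandApprox {n k : ℕ} (p : PMF (Program n k)) (r q : ℝ≥0) : Prop :=
  (∀ Q ∈ p.support, ∀ w : Clause n k → ℕ, opt (fun C => (w C : ℝ≥0)) ≤ Q.out w) ∧
    ∀ w : Clause n k → ℕ, (q : ENNReal) ≤ p.toOuterMeasure {Q | Q.out w ≤ r * opt (fun C => (w C : ℝ≥0))}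

/-- The expected number of additions. -/
noncomputable def expAdds {n k : ℕ} (p : PMF (Program n k)) : ENNReal := ∑' Q, p Q * (Q.adds : ENNReal)

theorem rand_lower {n k : ℕ} (hk : 2 ≤ k) (hkn : k ≤ n) {r q : ℝ≥0} {p : PMF (Program n k)}
    (h : RandApprox p r q) (ρ δ : ℝ) (V : ℝ≥0) (hρ : 0 < ρ)
    (hT : ρ * (n.choose k : ℕ) + 1 ≤ (2 - r) / 3 * (n.choose k : ℕ)) (hδ0 : 0 ≤ δ)
    (hδ : (1 - δ) ^ k ≤ ρ)
    (hV : ∀ H : Finset (Fin n → Bool), (∀ A ∈ H, ∀ B ∈ H, hd A B ≤ ⌊δ * n⌋₊) → (H.card : ℝ) ≤ V) :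
    (2 : ENNReal) ^ n * q ≤ expAdds p * V := by
  classical
  let good : Program n k → (Fin n → Bool) → Prop := fun Q A =>
    Q.out (testW k r A) ≤ r * opt (fun C => (testW k r A C : ℝ≥0))
  have hN : ∀ Q ∈ p.support, ((Finset.univ.filter (fun A => good Q A)).card : ENNReal) ≤ (Q.adds : ENNReal) * V := by
    intro Q hQ
    have h1 := lower hk hkn (P := Q.P) (a := Q.a) (fun w => h.1 Q hQ w) ρ δ V hρ hT hδ0 hδ hV
      (Finset.univ.filter (fun A => good Q A)) (fun A hA => (Finset.mem_filter.1 hA).2)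
    have h4 : ((Finset.univ.filter (fun A => good Q A)).card : ℝ≥0) ≤ (Q.adds : ℝ≥0) * V := by
      exact_mod_cast h1
    exact_mod_cast h4
  have h1 : ∑ A : Fin n → Bool, (q : ENNReal) ≤ expAdds p * V := by
    calc ∑ A : Fin n → Bool, (q : ENNReal) ≤ ∑ A : Fin n → Bool, p.toOuterMeasure {Q | good Q A} :=
          Finset.sum_le_sum (fun A _ => h.2 (testW k r A))
      _ = ∑ A : Fin n → Bool, ∑' Q, (if good Q A then p Q else 0) := by
          apply Finset.sum_congr rfl
          intro A _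
          rw [PMF.toOuterMeasure_apply]
          apply tsum_congr
          intro Q
          by_cases hg : good Q A
          · rw [if_pos hg, Set.indicator_of_mem (by exact hg)]
          · rw [if_neg hg, Set.indicator_of_notMem (by exact hg)]
      _ = ∑' Q, ∑ A : Fin n → Bool, (if good Q A then p Q else 0) :=
          (Summable.tsum_finsetSum (fun _ _ => ENNReal.summable)).symm
      _ ≤ ∑' Q, p Q * (Q.adds : ENNReal) * V := by
          apply ENNReal.tsum_le_tsum
          intro Q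
          rw [← Finset.sum_filter, Finset.sum_const, nsmul_eq_mul, mul_comm, mul_assoc]
          by_cases hQ : p Q = 0
          · rw [hQ]; simp
          · gcongr
            exact hN Q ((PMF.mem_support_iff p Q).2 hQ)
      _ = expAdds p * V := by rw [ENNReal.tsum_mul_right]; rfl
  rw [Finset.sum_const, nsmul_eq_mul] at h1
  have h2 : ((Finset.univ : Finset (Fin n → Bool)).card : ENNReal) = (2 : ENNReal) ^ n := by
    simp
  rw [h2] at h1
  exact h1

/-- Division by the class bound. -/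
theorem div_class {n : ℕ} {q V : ℝ≥0} {E : ENNReal} {y : ℝ} (h : (2 : ENNReal) ^ n * q ≤ E * V) (hV : 0 < V)
    (hy : y * V ≤ 2 ^ n) (hy0 : 0 ≤ y) : ENNReal.ofReal (q * y) ≤ E := by
  have hV0 : (V : ENNReal) ≠ 0 := by exact_mod_cast hV.ne'
  have hVt : (V : ENNReal) ≠ ⊤ := ENNReal.coe_ne_top
  rw [← ENNReal.mul_le_mul_iff_left hV0 hVt]
  refine le_trans ?_ h
  have e1 : (V : ENNReal) = ENNReal.ofReal V := by simp
  have e2 : (2 : ENNReal) ^ n * q = ENNReal.ofReal (2 ^ n * q) := by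
    rw [ENNReal.ofReal_mul (by positivity), ENNReal.ofReal_pow (by norm_num)]
    simp
  rw [e1, e2, ← ENNReal.ofReal_mul (by positivity)]
  apply ENNReal.ofReal_le_ofReal
  calc (q : ℝ) * y * V = q * (y * V) := by ring
    _ ≤ q * 2 ^ n := by gcongr
    _ = _ := by ring

/-- For large `n` the condition on `T` holds. -/
theorem large_choose (k : ℕ) (hk : 1 ≤ k) (c : ℝ) (hc : 0 < c) :
    ∃ n₀ : ℕ, k ≤ n₀ ∧ ∀ n ≥ n₀, 1 ≤ c * (n.choose k : ℕ) := by
  obtain ⟨N, hN⟩ := exists_nat_gt (1 / c)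
  refine ⟨N + k, by omega, fun n hn => ?_⟩
  have h1 : N ≤ n.choose k := by
    calc N ≤ n - k + 1 := by omega
      _ = (n - k + 1).choose 1 := by rw [Nat.choose_one_right]
      _ ≤ n.choose k := by
        obtain ⟨j, rfl⟩ := Nat.exists_eq_add_of_le hk
        obtain ⟨m, rfl⟩ : ∃ m, n = m + (1 + j) := ⟨n - (1 + j), by omega⟩
        have e : m + (1 + j) - (1 + j) + 1 = m + 1 := by omega
        rw [e]
        clear hn e
        induction j with
        | zero => simp
        | succ j ih =>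
          have := ih (by omega)
          calc (m + 1).choose 1 ≤ (m + (1 + j)).choose (1 + j) := this
            _ ≤ (m + (1 + (j + 1))).choose (1 + (j + 1)) := by
              have e2 : m + (1 + (j + 1)) = (m + (1 + j)) + 1 := by ring
              have e3 : 1 + (j + 1) = (1 + j) + 1 := by ring
              rw [e2, e3, Nat.choose_succ_succ]
              exact Nat.le_add_right _ _
  have h2 : (1 : ℝ) / c < (n.choose k : ℕ) := lt_of_lt_of_le hN (by exact_mod_cast h1)
  rw [div_lt_iff₀ hc] at h2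
  linarith

/-- **Fixed `k`.** -/
theorem lower_eth (k : ℕ) (hk : 2 ≤ k) (r : ℝ≥0) (hr : r < 2) :
    ∃ n₀ : ℕ, ∀ n ≥ n₀, ∀ (p : PMF (Program n k)) (q : ℝ≥0), RandApprox p r q →
      ENNReal.ofReal (q * Real.exp (((2 - (r : ℝ)) / 6) ^ (2 / (k : ℝ)) / 2 * n)) ≤ expAdds p := by
  have hr' : (r : ℝ) < 2 := by exact_mod_cast hr
  set ρ := (2 - (r : ℝ)) / 6 with hρ
  have hρ0 : 0 < ρ := by rw [hρ]; linarith
  have hρ3 : ρ < 1 := by
    have : (0 : ℝ) ≤ r := r.2
    rw [hρ]; linarith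
  -- the root
  set β := ρ ^ ((k : ℝ)⁻¹) with hβ
  have hβk : β ^ k = ρ := by
    rw [hβ]; exact Real.rpow_inv_natCast_pow hρ0.le (by omega)
  have hβ0 : 0 < β := Real.rpow_pos_of_pos hρ0 _
  have hβ2 : β ≤ 1 := by
    by_contra hcon
    push Not at hcon
    have := one_lt_pow₀ hcon (by omega : k ≠ 0)
    rw [hβk] at this; linarith
  obtain ⟨n₀, hn₀, hn⟩ := large_choose k (by omega) ρ hρ0
  refine ⟨n₀, fun n hnn p q hP => ?_⟩
  have hV0 : (0 : ℝ) < 2 ^ n * Real.exp (-(β ^ 2 * n / 2)) := by positivity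
  have h1 := rand_lower hk (by omega) hP ρ (1 - β) ⟨2 ^ n * Real.exp (-(β ^ 2 * n / 2)), hV0.le⟩ hρ0 (by
    have h3 := hn n hnn
    have h4 : (2 - (r : ℝ)) / 3 = 2 * ρ := by rw [hρ]; ring
    rw [h4]; linarith) (by linarith)
    (by simp [hβk]) (fun H hH => diam_exp H _ β hβ0.le (Nat.floor_le (by
      have : 0 ≤ 1 - β := by linarith
      positivity)) hH)
  refine div_class h1 (by exact_mod_cast hV0) ?_ (by positivity)
  have h2 : ρ ^ (2 / (k : ℝ)) / 2 * n = β ^ 2 * n / 2 := by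
    have e : ρ ^ (2 / (k : ℝ)) = β ^ 2 := by
      rw [hβ, ← Real.rpow_natCast (ρ ^ ((k : ℝ)⁻¹)) 2, ← Real.rpow_mul hρ0.le]
      congr 1
      push_cast
      rw [div_eq_mul_inv, mul_comm]
    rw [e]; ring
  rw [h2]
  show Real.exp (β ^ 2 * n / 2) * (2 ^ n * Real.exp (-(β ^ 2 * n / 2))) ≤ 2 ^ n
  have h3 : Real.exp (β ^ 2 * n / 2) * Real.exp (-(β ^ 2 * n / 2)) = 1 := by rw [← Real.exp_add]; simp
  calc Real.exp (β ^ 2 * n / 2) * (2 ^ n * Real.exp (-(β ^ 2 * n / 2)))
      = (Real.exp (β ^ 2 * n / 2) * Real.exp (-(β ^ 2 * n / 2))) * 2 ^ n := by ring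
    _ ≤ 2 ^ n := by rw [h3, one_mul]

/-- **Large `k`.** -/
theorem lower_seth (r : ℝ≥0) (hr : r < 2) (ε : ℝ) (hε : 0 < ε) :
    ∃ k₀ : ℕ, ∀ k ≥ k₀, ∃ n₀ : ℕ, ∀ n ≥ n₀, ∀ (p : PMF (Program n k)) (q : ℝ≥0),
      RandApprox p r q → ENNReal.ofReal (q * (2 : ℝ) ^ ((1 - ε) * n)) ≤ expAdds p := by
  have hr' : (r : ℝ) < 2 := by exact_mod_cast hr
  set ρ := (2 - (r : ℝ)) / 6 with hρ
  have hρ0 : 0 < ρ := by rw [hρ]; linarith
  have h2pos : (1 : ℝ) < 2 ^ (ε / 2) := Real.one_lt_rpow (by norm_num) (by linarith)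
  -- choice of `x` and `δ`
  set x := min 1 ((2 : ℝ) ^ (ε / 2) - 1) with hx
  have hx0 : 0 < x := lt_min (by norm_num) (by linarith)
  have hx1 : x ≤ 1 := min_le_left _ _
  have hx2 : 1 + x ≤ 2 ^ (ε / 2) := by have := min_le_right 1 ((2 : ℝ) ^ (ε / 2) - 1); linarith
  obtain ⟨δ, hδ0, hδ1, hδ2⟩ : ∃ δ : ℝ, 0 < δ ∧ δ ≤ 1 ∧ (2 : ℝ) ^ (-(ε / 2)) ≤ x ^ δ := by
    have hc : Filter.Tendsto (fun δ : ℝ => x ^ δ) (nhdsWithin 0 (Set.Ioi 0)) (nhds (x ^ (0 : ℝ))) :=
      (Real.continuousAt_const_rpow hx0.ne').tendsto.mono_left nhdsWithin_le_nhds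
    rw [Real.rpow_zero] at hc
    have h3 : (2 : ℝ) ^ (-(ε / 2)) < 1 := Real.rpow_lt_one_of_one_lt_of_neg (by norm_num) (by linarith)
    have h4 := hc.eventually (lt_mem_nhds h3)
    have h5 : ∀ᶠ δ : ℝ in nhdsWithin 0 (Set.Ioi 0), δ ∈ Set.Ioo (0 : ℝ) 1 := Ioo_mem_nhdsGT (by norm_num)
    obtain ⟨δ, hδ1, hδ2⟩ := (h4.and h5).exists
    exact ⟨δ, hδ2.1, hδ2.2.le, hδ1.le⟩
  obtain ⟨k₁, hk₁⟩ := exists_pow_lt_of_lt_one hρ0 (by linarith : 1 - δ < 1)
  refine ⟨max 2 k₁, fun k hk => ?_⟩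
  have hk2 : 2 ≤ k := le_trans (le_max_left _ _) hk
  have hδk : (1 - δ) ^ k ≤ ρ :=
    le_trans (pow_le_pow_of_le_one (by linarith) (by linarith) (le_trans (le_max_right _ _) hk)) hk₁.le
  obtain ⟨n₀, hn₀, hn⟩ := large_choose k (by omega) ρ hρ0
  refine ⟨n₀, fun n hnn p q hP => ?_⟩
  have hxδ : 0 < x ^ δ := Real.rpow_pos_of_pos hx0 δ
  have hV0 : (0 : ℝ) < ((1 + x) / x ^ δ) ^ n := by positivity
  have h1 := rand_lower hk2 (by omega) hP ρ δ ⟨((1 + x) / x ^ δ) ^ n, hV0.le⟩ hρ0 (by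
    have h3 := hn n hnn
    have h4 : (2 - (r : ℝ)) / 3 = 2 * ρ := by rw [hρ]; ring
    rw [h4]; linarith) hδ0.le hδk (by
    intro H hH
    have hb := ball_le n ⌊δ * n⌋₊ x hx0 hx1
    have hc := ball_family _ H hH
    set V := ∑ i ∈ Finset.range (⌊δ * n⌋₊ + 1), n.choose i with hV
    have hxd : (x ^ δ) ^ n ≤ x ^ ⌊δ * n⌋₊ := by
      rw [← Real.rpow_natCast (x ^ δ) n, ← Real.rpow_mul hx0.le, ← Real.rpow_natCast x]
      apply Real.rpow_le_rpow_of_exponent_ge hx0 hx1
      exact Nat.floor_le (by positivity)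
    have h1 : (V : ℝ) * (x ^ δ) ^ n ≤ (1 + x) ^ n := le_trans (by gcongr) hb
    have h2 : (H.card : ℝ) ≤ V := by exact_mod_cast hc
    show (H.card : ℝ) ≤ ((1 + x) / x ^ δ) ^ n
    refine le_trans h2 ?_
    rw [div_pow, le_div_iff₀ (by positivity)]
    exact h1)
  refine div_class h1 (by exact_mod_cast hV0) ?_ (by positivity)
  show (2 : ℝ) ^ ((1 - ε) * n) * ((1 + x) / x ^ δ) ^ n ≤ 2 ^ n
  rw [Real.rpow_mul_natCast (by norm_num), ← mul_pow]
  apply pow_le_pow_left₀ (by positivity)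
  rw [← mul_div_assoc, div_le_iff₀ hxδ]
  calc (2 : ℝ) ^ (1 - ε) * (1 + x) ≤ (2 : ℝ) ^ (1 - ε) * 2 ^ (ε / 2) := by gcongr
    _ = 2 * (2 : ℝ) ^ (-(ε / 2)) := by
      rw [← Real.rpow_add (by norm_num), show (2 : ℝ) * 2 ^ (-(ε / 2)) = 2 ^ (1 : ℝ) * 2 ^ (-(ε / 2)) by rw [Real.rpow_one],
        ← Real.rpow_add (by norm_num)]
      congr 1; ring
    _ ≤ 2 * x ^ δ := by gcongr

/-- The least falsified weight is zero exactly when some assignment falsifies no clause of nonzero weight. -/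
theorem opt_eq_zero {n k : ℕ} (w : Clause n k → ℝ≥0) :
    opt w = 0 ↔ ∃ A : Fin n → Bool, ∀ C : Clause n k, Falsifies A C → w C = 0 := by
  classical
  constructor
  · intro h
    obtain ⟨A, hA⟩ := exists_eq_ciInf_of_finite (f := fun A : Fin n → Bool => cost w A)
    have h0 : cost w A = 0 := by
      rw [← h]; exact hA
    refine ⟨A, fun C hC => ?_⟩
    unfold cost at h0
    rw [Finset.sum_eq_zero_iff] at h0
    have := h0 C (Finset.mem_univ C)
    rwa [if_pos hC] at this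
  · rintro ⟨A, hA⟩
    apply le_antisymm _ (zero_le)
    refine le_trans (opt_le w A) ?_
    unfold cost
    rw [Finset.sum_eq_zero]
    intro C _
    by_cases hC : Falsifies A C
    · rw [if_pos hC, hA C hC]
    · rw [if_neg hC]

end Pool.Agent.L5helper18.TP
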