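import Mathlib
import Pool.Agent.L5helper18.TP.Sat

/-!
# The trivial program
-/

namespace Pool.Agent.L5helper18.TP

open scoped NNReal

/-- An argument, seen one operation later. -/
def Arg.lift {E : Type} {i : ℕ} : Arg E i → Arg E (i + 1)
  | .var e => .var e
  | .const c => .const c
  | .gate j => .gate j.castSucc

theorem Arg.val_lift {E : Type} {i : ℕ} (w : E → ℝ≥0) (v : Fin i → ℝ≥0) (x : ℝ≥0) (a : Arg E i) :
    a.lift.val w (Fin.snoc v x : Fin (i + 1) → ℝ≥0) = a.val w v := by
  cases a with
  | var e => rfl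
  | const c => rfl
  | gate j => simp only [Arg.lift, Arg.val, Fin.snoc_castSucc]

theorem addList {E : Type} (L : List E) : ∀ {i : ℕ} (P : Prog E i) (a b : Arg E i),
    ∃ (j : ℕ) (P' : Prog E j) (a' b' : Arg E j), P'.adds = P.adds + L.length ∧
      ∀ w, a'.val w (P'.val w) = a.val w (P.val w) + (L.map w).sum ∧ b'.val w (P'.val w) = b.val w (P.val w) := by
  induction L with
  | nil =>
    intro i P a b
    exact ⟨i, P, a, b, by simp, fun w => by simp⟩
  | cons e L ih =>
    intro i P a b
    obtain ⟨j, P', a', b', h1, h2⟩ := ih (Prog.add P a (Arg.var e)) (Arg.gate (Fin.last i)) b.lift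
    refine ⟨j, P', a', b', ?_, fun w => ?_⟩
    · rw [h1]; simp only [Prog.adds, List.length_cons]; omega
    · obtain ⟨h3, h4⟩ := h2 w
      rw [h3, h4]
      constructor
      · simp only [Arg.val, Prog.val, Fin.snoc_last, List.map_cons, List.sum_cons]
        rw [add_assoc]
      · simp only [Prog.val]
        rw [Arg.val_lift]

theorem minList {E : Type} (Ls : List (List E)) : ∀ {i : ℕ} (P : Prog E i) (b : Arg E i),
    ∃ (j : ℕ) (P' : Prog E j) (b' : Arg E j), P'.adds = P.adds + (Ls.map List.length).sum ∧
      ∀ w, b'.val w (P'.val w) ≤ b.val w (P.val w) ∧ (∀ L ∈ Ls, b'.val w (P'.val w) ≤ (L.map w).sum) ∧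
        (b'.val w (P'.val w) = b.val w (P.val w) ∨ ∃ L ∈ Ls, b'.val w (P'.val w) = (L.map w).sum) := by
  induction Ls with
  | nil =>
    intro i P b
    exact ⟨i, P, b, by simp, fun w => ⟨le_refl _, by simp, Or.inl rfl⟩⟩
  | cons L Ls ih =>
    intro i P b
    obtain ⟨i1, P1, a1, b1, h1, h2⟩ := addList L P (Arg.const 0) b
    obtain ⟨j, P', b', h3, h4⟩ := ih (Prog.min P1 a1 b1) (Arg.gate (Fin.last i1))
    refine ⟨j, P', b', ?_, fun w => ?_⟩
    · rw [h3]
      simp only [Prog.adds, List.map_cons, List.sum_cons]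
      omega
    · obtain ⟨h5, h6, h7⟩ := h4 w
      obtain ⟨h8, h9⟩ := h2 w
      have h10 : (Arg.gate (Fin.last i1)).val w ((Prog.min P1 a1 b1).val w) =
          Min.min ((L.map w).sum) (b.val w (P.val w)) := by
        simp only [Arg.val, Prog.val, Fin.snoc_last]
        simp only [Arg.val] at h8 h9
        rw [h8, h9, zero_add]
      rw [h10] at h5 h7
      refine ⟨le_trans h5 (min_le_right _ _), ?_, ?_⟩
      · intro L' hL'
        rcases List.mem_cons.1 hL' with rfl | hL'
        · exact le_trans h5 (min_le_left _ _)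
        · exact h6 L' hL'
      · rcases h7 with h7 | ⟨L', hL', h7⟩
        · rcases le_total ((L.map w).sum) (b.val w (P.val w)) with h | h
          · rw [min_eq_left h] at h7
            exact Or.inr ⟨L, List.mem_cons_self, h7⟩
          · rw [min_eq_right h] at h7
            exact Or.inl h7
        · exact Or.inr ⟨L', List.mem_cons_of_mem _ hL', h7⟩

theorem cost_eq {n k : ℕ} (w : Clause n k → ℝ≥0) (A : Fin n → Bool) : cost w A = ((F k A).toList.map w).sum := by
  classical
  rw [Finset.sum_map_toList]
  unfold cost F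
  rw [Finset.sum_filter]

/-- The trivial program: one sum for every assignment. -/
theorem upper (n k : ℕ) : ∃ (s : ℕ) (P : Prog (Clause n k) s) (a : Arg (Clause n k) s),
    P.adds = 2 ^ n * n.choose k ∧ ∀ w : Clause n k → ℝ≥0, a.val w (P.val w) = opt w := by
  classical
  have hne : (Finset.univ : Finset (Fin n → Bool)).toList ≠ [] := by
    rw [ne_eq, Finset.toList_eq_nil]
    exact Finset.univ_nonempty.ne_empty
  obtain ⟨A0, rest, hrest⟩ := List.exists_cons_of_ne_nil hne
  obtain ⟨i1, P1, a1, b1, h1, h2⟩ := addList (F k A0).toList (Prog.nil : Prog (Clause n k) 0) (Arg.const 0) (Arg.const 0)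
  obtain ⟨j, P', b', h3, h4⟩ := minList (rest.map (fun A => (F k A).toList)) P1 a1
  have hmem : ∀ A : Fin n → Bool, A = A0 ∨ A ∈ rest := by
    intro A
    have : A ∈ (Finset.univ : Finset (Fin n → Bool)).toList := by simp
    rw [hrest] at this
    exact List.mem_cons.1 this
  refine ⟨j, P', b', ?_, fun w => ?_⟩
  · rw [h3, h1]
    have hl : ∀ l : List (Fin n → Bool), ((l.map (fun A => (F k A).toList)).map List.length).sum = l.length * n.choose k := by
      intro l
      induction l with
      | nil => simp
      | cons A l ih =>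
        rw [List.map_cons, List.map_cons, List.sum_cons, ih, Finset.length_toList, card_F, List.length_cons]
        ring
    rw [hl, Finset.length_toList, card_F]
    have h5 : (Finset.univ : Finset (Fin n → Bool)).toList.length = rest.length + 1 := by rw [hrest]; rfl
    rw [Finset.length_toList] at h5
    have h6 : (Finset.univ : Finset (Fin n → Bool)).card = 2 ^ n := by simp
    rw [← h6, h5]
    simp only [Prog.adds]
    ring
  · obtain ⟨h5, h6, h7⟩ := h4 w
    have h8 : a1.val w (P1.val w) = cost w A0 := by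
      rw [(h2 w).1, cost_eq]; simp [Arg.val]
    rw [h8] at h5 h7
    have h9 : ∀ A, b'.val w (P'.val w) ≤ cost w A := by
      intro A
      rcases hmem A with rfl | hA
      · exact h5
      · rw [cost_eq]; exact h6 _ (List.mem_map.2 ⟨A, hA, rfl⟩)
    have h10 : ∃ A, b'.val w (P'.val w) = cost w A := by
      rcases h7 with h7 | ⟨L, hL, h7⟩
      · exact ⟨A0, h7⟩
      · obtain ⟨A, _, rfl⟩ := List.mem_map.1 hL
        exact ⟨A, by rw [h7, cost_eq]⟩
    apply le_antisymm
    · exact le_opt w _ h9
    · obtain ⟨A, hA⟩ := h10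
      rw [hA]; exact opt_le w A

end Pool.Agent.L5helper18.TP
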